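import Pool.Agent.Helper7.SR.EX
import Pool.Agent.Helper91.SR.KRO
import Pool.Agent.Helper86.SR.HALL
import Pool.Agent.Helper94.SR.EX1
import Pool.Agent.Helper15.SR.EX2
import Pool.Agent.Helper8.SR.ALT
import Pool.Agent.Helper13.SR.STEP
import Pool.Agent.Helper2.SR.COV
import Pool.Agent.Helper48.SR.MAIN
import Pool.Agent.Helper60.SR.FIN
import Pool.Agent.Helper93.SR.TOP

set_option autoImplicit false

namespace Pool.Agent.Results.MP_bb782b_co.AsymptoticAharoniBerger

/-- There is an absolute constant `C` such that: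

(1) if the common finite ground set of two matroids `M`, `N` with `n ≥ 2` elements is a union of
`k` `M`-independent sets and also a union of `k` `N`-independent sets, then it is a disjoint union
of at most `k + C (k^(3/4) (log n)^(1/2) + (log n)^2)` common independent sets;

(2) if `M` is a loopless matroid of rank `k ≥ 2` whose ground set is a disjoint union of `k` bases
and `P` is a partition of the ground set into `k` blocks of size `k`, then the ground set is a
disjoint union of at most `k + C k^(3/4) (log k)^(1/2)` independent partial transversals, and there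
are `k - 1` disjoint independent partial transversals which together contain at least
`k^2 - C k^(7/4) (log k)^(1/2)` elements. -/
theorem result :
    ∃ C : ℝ, 0 < C ∧
      (∀ (α : Type) (M N : Matroid α) (k : ℕ), 1 ≤ k → M.E = N.E → M.E.Finite → 2 ≤ M.E.ncard →
        (∃ A : Fin k → Set α, (∀ i, M.Indep (A i)) ∧ (⋃ i, A i) = M.E) →
        (∃ A : Fin k → Set α, (∀ i, N.Indep (A i)) ∧ (⋃ i, A i) = M.E) →
        ∃ (m : ℕ) (T : Fin m → Set α),
          (m : ℝ) ≤ k + C * ((k : ℝ) ^ (3 / 4 : ℝ) * (Real.log M.E.ncard) ^ (1 / 2 : ℝ) +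
            (Real.log M.E.ncard) ^ 2) ∧
          (∀ j, M.Indep (T j) ∧ N.Indep (T j)) ∧ (Pairwise fun j j' => Disjoint (T j) (T j')) ∧
          (⋃ j, T j) = M.E) ∧
      ∀ (α : Type) (M : Matroid α) (k : ℕ),
        2 ≤ k →
        M.Loopless →
        M.eRank = (k : ℕ∞) →
        (∃ B : Fin k → Set α, (∀ i, M.IsBase (B i)) ∧
            (Pairwise fun i j => Disjoint (B i) (B j)) ∧ (⋃ i, B i) = M.E) →
        ∀ P : Fin k → Set α,
          (∀ i, (P i).encard = (k : ℕ∞)) →
          (Pairwise fun i j => Disjoint (P i) (P j)) →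
          (⋃ i, P i) = M.E →
          (∃ (m : ℕ) (T : Fin m → Set α),
            (m : ℝ) ≤ k + C * (k : ℝ) ^ (3 / 4 : ℝ) * (Real.log k) ^ (1 / 2 : ℝ) ∧
            (∀ j, M.Indep (T j)) ∧ (∀ j, ∀ i, (T j ∩ P i).encard ≤ 1) ∧
            (Pairwise fun j j' => Disjoint (T j) (T j')) ∧ (⋃ j, T j) = M.E) ∧
          ∃ T : Fin (k - 1) → Set α,
            (∀ j, M.Indep (T j)) ∧ (∀ j, ∀ i, (T j ∩ P i).encard ≤ 1) ∧
            (Pairwise fun j j' => Disjoint (T j) (T j')) ∧
            (k : ℝ) ^ 2 - C * (k : ℝ) ^ (7 / 4 : ℝ) * (Real.log k) ^ (1 / 2 : ℝ) ≤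
              ((⋃ j, T j).ncard : ℝ) :=
  Helper93.SR.s_top (Helper60.SR.s_fin (Helper48.SR.s_main
    (Helper13.SR.s_step (Helper7.SR.s_ex (Helper94.SR.s_ex1 Helper86.SR.s_hall)
      (Helper15.SR.s_ex2 Helper91.SR.s_kro) Helper8.SR.s_alt))
    (Helper2.SR.s_cov (Helper7.SR.s_ex (Helper94.SR.s_ex1 Helper86.SR.s_hall)
      (Helper15.SR.s_ex2 Helper91.SR.s_kro) Helper8.SR.s_alt))))

end Pool.Agent.Results.MP_bb782b_co.AsymptoticAharoniBerger
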