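import Mathlib
import Pool.Agent.Helper55.RotaCases3

/-!
The scrambled Rota conjecture for matroids of rank `k` in which every set of at most `k - 2`
elements is independent (this contains all paving matroids).

Idea of the proof. Take a maximum family of disjoint transversal bases, and let `U` be the set of
uncovered elements. If at least two transversals are missing, then by Rado's theorem `U` has rank
at most `k - 1` or loses rank `k - 2` after deleting one block. In each case exchange arguments
show that every member of the family has all but a few elements in a fixed hyperplane (or flat of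
rank `k - 2`), which then has more elements than a union of `k` bases allows.
-/

set_option autoImplicit false

namespace Pool.Agent.Results.MP_bb782b_co.LargeGirth

open Pool.Agent.Helper55.Rota

/-- Let `M` be a loopless matroid of rank `k` whose ground set is a disjoint union of `k` bases,
in which every set of at most `k - 2` elements is independent. Then every partition of the ground
set into `k` blocks of size `k` has `k - 1` disjoint transversals that are bases. -/
theorem result :
    ∀ (α : Type) (M : Matroid α) (k : ℕ),
      M.Loopless →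
      M.eRank = (k : ℕ∞) →
      (∃ B : Fin k → Set α, (∀ i, M.IsBase (B i)) ∧
          (Pairwise fun i j => Disjoint (B i) (B j)) ∧ (⋃ i, B i) = M.E) →
      (∀ I : Set α, I ⊆ M.E → I.encard + 2 ≤ (k : ℕ∞) → M.Indep I) →
      ∀ P : Fin k → Set α,
        (∀ i, (P i).encard = (k : ℕ∞)) →
        (Pairwise fun i j => Disjoint (P i) (P j)) →
        (⋃ i, P i) = M.E →
        ∃ T : Fin (k - 1) → Set α,
          (∀ j, M.IsBase (T j)) ∧
          (∀ j, ∀ i, (T j ∩ P i).encard = 1) ∧
          (Pairwise fun j j' => Disjoint (T j) (T j')) := by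
  classical
  intro α M k hM hrk hB hgirth P hPc hPd hPu
  rcases Nat.eq_zero_or_pos k with hk0 | hk0
  · subst hk0
    exact ⟨fun j => absurd j.2 (by omega), fun j => absurd j.2 (by omega),
      fun j => absurd j.2 (by omega), fun j => absurd j.2 (by omega)⟩
  obtain ⟨B, hB1, hB2, hB3⟩ := hB
  have hBfin : ∀ i, (B i).Finite := by
    intro i
    have h1 := (hB1 i).encard_eq_eRank
    rw [hrk] at h1
    exact Set.finite_of_encard_eq_coe h1
  have hEfin : M.E.Finite := by
    rw [← hB3]; exact Set.finite_iUnion hBfin
  have hmemE : ∀ x, x ∈ hEfin.toFinset ↔ x ∈ M.E := fun x => hEfin.mem_toFinset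
  -- the rank function
  have hfin : ∀ X : Set α, M.eRk X ≠ ⊤ := by
    intro X
    have h1 := M.eRk_le_eRank X
    rw [hrk] at h1
    exact ne_top_of_le_ne_top (ENat.natCast_ne_top k) h1
  have hcoe : ∀ X : Finset α, (((M.eRk (X : Set α)).toNat : ℕ) : ℕ∞) = M.eRk (X : Set α) :=
    fun X => ENat.natCast_toNat (hfin X)
  let R : RankFn α :=
    { r := fun X => (M.eRk (X : Set α)).toNat
      empty := by simp
      mono := by
        intro X Y h
        have h1 : (((M.eRk (X : Set α)).toNat : ℕ) : ℕ∞) ≤ (((M.eRk (Y : Set α)).toNat : ℕ) : ℕ∞) := by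
          rw [hcoe X, hcoe Y]
          exact M.eRk_mono (Finset.coe_subset.mpr h)
        exact_mod_cast h1
      insert_le := by
        intro X x
        have h1 : (((M.eRk ((insert x X : Finset α) : Set α)).toNat : ℕ) : ℕ∞)
            ≤ (((M.eRk (X : Set α)).toNat : ℕ) : ℕ∞) + 1 := by
          rw [hcoe X, hcoe (insert x X), Finset.coe_insert]
          exact M.eRk_insert_le_add_one x (X : Set α)
        exact_mod_cast h1
      submod := by
        intro X Y
        have h1 : (((M.eRk ((X ∩ Y : Finset α) : Set α)).toNat : ℕ) : ℕ∞)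
            + (((M.eRk ((X ∪ Y : Finset α) : Set α)).toNat : ℕ) : ℕ∞)
            ≤ (((M.eRk (X : Set α)).toNat : ℕ) : ℕ∞) + (((M.eRk (Y : Set α)).toNat : ℕ) : ℕ∞) := by
          rw [hcoe X, hcoe Y, hcoe (X ∩ Y), hcoe (X ∪ Y), Finset.coe_inter, Finset.coe_union]
          exact M.eRk_inter_add_eRk_union_le (X : Set α) (Y : Set α)
        have h2 : (M.eRk ((X ∩ Y : Finset α) : Set α)).toNat + (M.eRk ((X ∪ Y : Finset α) : Set α)).toNat
            ≤ (M.eRk (X : Set α)).toNat + (M.eRk (Y : Set α)).toNat := by exact_mod_cast h1
        omega }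
  -- the block function
  have hblk : ∀ x, ∃ i : Fin k, x ∈ M.E → x ∈ P i := by
    intro x
    by_cases hx : x ∈ M.E
    · have h1 := hx
      rw [← hPu, Set.mem_iUnion] at h1
      obtain ⟨i, hi⟩ := h1
      exact ⟨i, fun _ => hi⟩
    · exact ⟨⟨0, hk0⟩, fun h => absurd h hx⟩
  choose b hb using hblk
  have hPE : ∀ i, P i ⊆ M.E := fun i => by rw [← hPu]; exact Set.subset_iUnion P i
  have hbiff : ∀ x ∈ M.E, ∀ i, b x = i ↔ x ∈ P i := by
    intro x hx i
    constructor
    · rintro rfl; exact hb x hx
    · intro hxi
      by_contra hne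
      exact Set.disjoint_left.mp (hPd hne) (hb x hx) hxi
  have hPfilter : ∀ i, ((hEfin.toFinset.filter (fun x => b x = i) : Finset α) : Set α) = P i := by
    intro i
    ext x
    rw [Finset.mem_coe, Finset.mem_filter, hmemE]
    constructor
    · rintro ⟨hx, hxi⟩; exact (hbiff x hx i).mp hxi
    · intro hx; exact ⟨hPE i hx, (hbiff x (hPE i hx) i).mpr hx⟩
  have hindep : ∀ X : Finset α, M.Indep (X : Set α) → X.card = R.r X := by
    intro X hX
    have h1 := hX.eRk_eq_encard
    rw [← hcoe, Set.encard_coe_eq_coe_finsetCard] at h1
    exact (by exact_mod_cast h1.symm)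
  let S : Setting α k :=
    { R with
      E := hEfin.toFinset
      b := b
      P_card := by
        intro i
        have h1 := hPc i
        rw [← hPfilter i, Set.encard_coe_eq_coe_finsetCard] at h1
        exact_mod_cast h1
      rE := by
        have h1 : M.eRk ((hEfin.toFinset : Finset α) : Set α) = (k : ℕ∞) := by
          rw [hEfin.coe_toFinset, M.eRk_ground, hrk]
        change (M.eRk ((hEfin.toFinset : Finset α) : Set α)).toNat = k
        rw [h1]
        exact ENat.toNat_natCast k
      dens := by
        intro X hX
        have h1 : X.card ≤ ∑ i : Fin k, (X.filter (fun x => x ∈ B i)).card := by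
          have h2 : X ⊆ (Finset.univ : Finset (Fin k)).biUnion (fun i => X.filter (fun x => x ∈ B i)) := by
            intro x hx
            have h3 : x ∈ M.E := (hmemE x).mp (hX hx)
            rw [← hB3, Set.mem_iUnion] at h3
            obtain ⟨i, hi⟩ := h3
            rw [Finset.mem_biUnion]
            exact ⟨i, Finset.mem_univ _, Finset.mem_filter.mpr ⟨hx, hi⟩⟩
          exact (Finset.card_le_card h2).trans Finset.card_biUnion_le
        have h3 : ∀ i : Fin k, (X.filter (fun x => x ∈ B i)).card ≤ R.r X := by
          intro i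
          have h4 : M.Indep ((X.filter (fun x => x ∈ B i) : Finset α) : Set α) := by
            apply (hB1 i).indep.subset
            intro x hx
            rw [Finset.mem_coe, Finset.mem_filter] at hx
            exact hx.2
          rw [hindep _ h4]
          exact R.mono (Finset.filter_subset _ _)
        calc X.card ≤ ∑ i : Fin k, (X.filter (fun x => x ∈ B i)).card := h1
          _ ≤ ∑ _i : Fin k, R.r X := Finset.sum_le_sum (fun i _ => h3 i)
          _ = k * R.r X := by simp
      girth := by
        intro X hX hXc
        have h1 : M.Indep (X : Set α) := by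
          apply hgirth
          · intro x hx
            exact (hmemE x).mp (hX (Finset.mem_coe.mp hx))
          · rw [Set.encard_coe_eq_coe_finsetCard]
            exact_mod_cast hXc
        exact (hindep X h1).le
      loopless := by
        intro x hx
        have h1 : M.Indep (({x} : Finset α) : Set α) := by
          rw [Finset.coe_singleton]
          have := hM
          exact (M.isNonloop_of_loopless ((hmemE x).mp hx)).indep
        have h2 := hindep _ h1
        rw [Finset.card_singleton] at h2
        exact h2.le }
  have hne : Nonempty α := by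
    have h1 := hPc ⟨0, hk0⟩
    by_contra hcon
    rw [not_nonempty_iff] at hcon
    have h2 : P ⟨0, hk0⟩ = ∅ := Set.eq_empty_of_isEmpty _
    rw [h2, Set.encard_empty] at h1
    have h3 : (0 : ℕ) = k := by exact_mod_cast h1
    omega
  obtain ⟨𝒯, hp, hc⟩ := S.main
  obtain ⟨𝒮, h𝒮, h𝒮c⟩ := Finset.exists_subset_card_eq (s := 𝒯) (n := k - 1) (by omega)
  let e := Finset.equivFinOfCardEq h𝒮c
  refine ⟨fun j => ((e.symm j : Finset α) : Set α), ?_, ?_, ?_⟩
  · intro j
    have hT : S.TB (e.symm j : Finset α) := hp.tb _ (h𝒮 (e.symm j).2)
    obtain ⟨h1, h2, h3, h4⟩ := hT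
    have h5 : M.eRk ((e.symm j : Finset α) : Set α) = (k : ℕ∞) := by
      rw [← hcoe]; exact_mod_cast h4
    have h6 : M.Indep ((e.symm j : Finset α) : Set α) := by
      rw [Matroid.indep_iff_eRk_eq_encard_of_finite (Finset.finite_toSet _), h5,
        Set.encard_coe_eq_coe_finsetCard, h2]
    exact h6.isBase_of_eRk_ge (Finset.finite_toSet _) (by rw [h5, hrk])
  · intro j i
    have hT : S.TB (e.symm j : Finset α) := hp.tb _ (h𝒮 (e.symm j).2)
    have h1 := hT.block_card i
    have h2 : (((e.symm j : Finset α) : Set α) ∩ P i)
        = (((e.symm j : Finset α).filter (fun x => S.b x = i) : Finset α) : Set α) := by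
      ext x
      rw [Set.mem_inter_iff, Finset.mem_coe, Finset.mem_coe, Finset.mem_filter]
      constructor
      · rintro ⟨hx, hxi⟩
        exact ⟨hx, (hbiff x (hPE i hxi) i).mpr hxi⟩
      · rintro ⟨hx, hxi⟩
        exact ⟨hx, (hbiff x ((hmemE x).mp (hT.1 hx)) i).mp hxi⟩
    rw [h2, Set.encard_coe_eq_coe_finsetCard, h1]
    rfl
  · intro j j' hjj
    rw [Finset.disjoint_coe]
    apply hp.disj _ (h𝒮 (e.symm j).2) _ (h𝒮 (e.symm j').2)
    intro h
    exact hjj (e.symm.injective (Subtype.ext h))

end Pool.Agent.Results.MP_bb782b_co.LargeGirth
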