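import Mathlib
import Pool.Agent.Helper28.MT.Goals3
import Pool.Agent.Helper28.MT.W
import Pool.Agent.Helper41.MT.U
import Pool.Agent.Helper13.MT.X
import Pool.Agent.Helper12.MT.R1
import Pool.Agent.Helper94.MT2.H2
import Pool.Agent.Helper29.MT3.ACT
import Pool.Agent.Helper28.MT3.K3
import Pool.Agent.Helper20.MT3.CARD
import Pool.Agent.Helper64.MT3.ENCA
import Pool.Agent.Helper28.MT3.ENC
import Pool.Agent.Helper40.MT3.LAB3
import Pool.Agent.Helper75.MT3.STEPN3
import Pool.Agent.Helper62.MT3.ABS
import Pool.Agent.Helper9.MT3.STEPW3
import Pool.Agent.Helper1.MT3.POTI
import Pool.Agent.Helper98.MT3.POTS3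
import Pool.Agent.Helper48.MT3.POTB3
import Pool.Agent.Helper34.MT3.STEP3
import Pool.Agent.Helper14.MT3.SEL3
import Pool.Agent.Helper28.MT3.NUM3
import Pool.Agent.Helper14.MT3.TOP3

/-!
At least `c k` disjoint transversal bases, for every matroid and arbitrary blocks.

Idea of the proof. Let `2^s` be the number of bases to be found. Random labels split the ground set
into the top, common to all bases, and a sequence of small sets (labels). The base number `j` uses,
for `l = 0, ..., s`, the labels `t` with `t / 2^l = j / 2^l + 2`: the further away, the more labels,
and the higher the costs of their elements, which also depend on how much has been used already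
(exponential weights). The bases are chosen one after the other, each of least cost among the
allowed elements that are not used yet. By Rado's theorem with weights, a least cost basis comes
with a chain of closed sets and a chain of sets of blocks; steps of the chains at which the rank
equals the number of blocks can be deleted, and every other step is crossed by at least `k`
elements. So, if the costs are blurred by `c0`, the chains have few steps, and a short description:
each closed set is spanned by its elements in one of the `k` given bases and by few further
elements. As large sets with short descriptions meet every half of the labels of a level in many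
elements, the elements that are worth more than their cost are few on each level. This bounds the
cost of each basis; an exponential potential then bounds what all bases together take from the
labels ahead and from the top, so that the condition of Rado survives until the end.
-/

set_option autoImplicit false

namespace Pool.Agent.Results.MP_bb782b_co.ManyTransversalBases

/-- There is an absolute constant `c > 0` with the following property. Let `n ≤ k`, `2 ≤ k`, let
`M` be a matroid of rank `n` whose ground set is a disjoint union of `k` bases, and `P` an
arbitrary partition of the ground set into `n` blocks of size `k`. Then there are at least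
`c k` pairwise disjoint bases, each of which meets every block in exactly one element. -/
theorem result :
    ∃ c : ℝ, 0 < c ∧
      ∀ (α : Type) (M : Matroid α) (n k : ℕ), 2 ≤ k → n ≤ k →
        M.eRank = (n : ℕ∞) →
        (∃ B : Fin k → Set α, (∀ i, M.IsBase (B i)) ∧
            (Pairwise fun i j => Disjoint (B i) (B j)) ∧ (⋃ i, B i) = M.E) →
        ∀ P : Fin n → Set α,
          (∀ i, (P i).encard = (k : ℕ∞)) →
          (Pairwise fun i j => Disjoint (P i) (P j)) →
          (⋃ i, P i) = M.E →
          ∃ (m : ℕ) (T : Fin m → Set α),
            c * k ≤ m ∧
            (∀ j, M.IsBase (T j)) ∧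
            (∀ j, ∀ i, (T j ∩ P i).encard = 1) ∧
            (Pairwise fun j j' => Disjoint (T j) (T j')) :=
  Pool.Agent.Helper14.MT3.mt3_top3
    (Pool.Agent.Helper14.MT3.mt3_sel3
      (Pool.Agent.Helper40.MT3.mt3_lab3 Pool.Agent.Helper94.MT2.mt2_h2
        Pool.Agent.Helper12.MT.mt_r1)
      Pool.Agent.Helper20.MT3.mt3_card
      Pool.Agent.Helper13.MT.mt_x
      (Pool.Agent.Helper34.MT3.mt3_step3
        (Pool.Agent.Helper9.MT3.mt3_stepw3
          (Pool.Agent.Helper75.MT3.mt3_stepn3
            (Pool.Agent.Helper28.MT3.mt3_k3 Pool.Agent.Helper28.MT.mt_w
              Pool.Agent.Helper29.MT3.mt3_act)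
            (Pool.Agent.Helper28.MT3.mt3_enc
              (Pool.Agent.Helper64.MT3.mt3_enca Pool.Agent.Helper13.MT.mt_x)
              Pool.Agent.Helper41.MT.mt_u)
            Pool.Agent.Helper41.MT.mt_u)
          Pool.Agent.Helper62.MT3.mt3_abs)
        (Pool.Agent.Helper98.MT3.mt3_pots3 Pool.Agent.Helper1.MT3.mt3_poti)
        Pool.Agent.Helper48.MT3.mt3_potb3)
      Pool.Agent.Helper48.MT3.mt3_potb3)
    Pool.Agent.Helper28.MT3.mt3_num3

end Pool.Agent.Results.MP_bb782b_co.ManyTransversalBases
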