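import Mathlib
import Pool.Agent.Helper10.SPL.Two

/-!
Disjoint transversal bases: exact packing by splitting at cost one.

Idea of the proof. A state is a set `R` of `q n` elements that satisfies Edmonds' condition
`|X| ≤ q r(X)` for the matroid and for the partition matroid of the blocks, together with a direct
sum decomposition. Take a transversal basis `T` in `R`. If `R - T` satisfies the conditions with
`q - 1`, take `T`. Otherwise let `F` minimise `(q r(X) - |X|) / (r(X) - |T ∩ X|)` over the subsets
of all pieces; then `1_R - lam 1_T` is tight on `F` for the minimum `lam < 1`, so the piece of `F`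
can be split at `F`, and by integrality of matroid intersection there is a set of `(q - 1) n`
elements in `R` that satisfies the conditions for the split matroid. Both parts of the split piece
have smaller rank and one of them has rank at least two, so this happens only few times. (The same
argument works for two arbitrary matroids, see the theorem `two_matroids` in the imported file.)
-/

set_option autoImplicit false

namespace Pool.Agent.Results.MP_bb782b_co.SplittingBound

open Pool.Agent.Helper55.Rota
open Pool.Agent.Helper10.SPL

/-- Let `M` be a matroid of rank `n` whose ground set is a disjoint union of `k` bases. Let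
`S 0, ..., S (s-1)` be a partition of the ground set with `∑ i, r(S i) = r(M)` (that is, `M` is
the direct sum of its restrictions to the `S i`), and `P` an arbitrary partition of the ground set
into `n` blocks of size `k`. Then there are at least `k - ∑ i, (r(S i) - 2)^+` disjoint bases each
of which meets every block in exactly one element. -/
theorem result :
    ∀ (α : Type) (M : Matroid α) (n k : ℕ),
      M.eRank = (n : ℕ∞) →
      (∃ B : Fin k → Set α, (∀ i, M.IsBase (B i)) ∧
          (Pairwise fun i j => Disjoint (B i) (B j)) ∧ (⋃ i, B i) = M.E) →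
      ∀ (s : ℕ) (S : Fin s → Set α),
        (Pairwise fun i j => Disjoint (S i) (S j)) → (⋃ i, S i) = M.E →
        ∑ i, M.eRk (S i) = M.eRank →
        ∀ P : Fin n → Set α,
          (∀ i, (P i).encard = (k : ℕ∞)) →
          (Pairwise fun i j => Disjoint (P i) (P j)) →
          (⋃ i, P i) = M.E →
          ∃ (m : ℕ) (T : Fin m → Set α),
            (k : ℕ∞) ≤ m + ∑ i, (M.eRk (S i) - 2) ∧
            (∀ j, M.IsBase (T j)) ∧
            (∀ j, ∀ i, (T j ∩ P i).encard = 1) ∧
            (Pairwise fun j j' => Disjoint (T j) (T j')) := by
  classical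
  intro α M n k hM hBM s S hSd hSu hSs P hPc hPd hPu
  obtain ⟨B, hB1, hB2, hB3⟩ := hBM
  rcases Nat.eq_zero_or_pos n with hn | hn
  · subst hn
    exact ⟨k, fun _ => ∅, le_self_add, fun j => base_empty M hM B hB1 j,
      fun j i => absurd i.2 (by omega), fun j j' _ => disjoint_bot_left⟩
  rcases Nat.eq_zero_or_pos k with hk | hk
  · subst hk
    exact ⟨0, fun j => absurd j.2 (by omega), by simp, fun j => absurd j.2 (by omega),
      fun j => absurd j.2 (by omega), fun j => absurd j.2 (by omega)⟩
  obtain ⟨E, hE1, hE2⟩ := finE M hM B hB1 hB2 hB3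
  obtain ⟨c, hlt, hc⟩ := label (E : Set α) S hSd (by rw [hSu, hE1])
  obtain ⟨b, hblt, hb⟩ := label (E : Set α) P hPd (by rw [hPu, hE1])
  obtain ⟨hD, hp⟩ := ofM_dec M hM hE1 hSu hlt hc hSs
  have hPu' : (⋃ i, P i) = (E : Set α) := by rw [hPu, hE1]
  have hbc : ∀ j < n, (E.filter (fun x => b x = j)).card = k := by
    intro j hj
    have h1 := hPc ⟨j, hj⟩
    rw [← label_filter hPu' hb ⟨j, hj⟩, Set.encard_coe_eq_coe_finsetCard] at h1
    exact_mod_cast h1
  have hst : St n k (ofM M hM) (blk b) E c b s n :=
    ⟨hD, blk_dec b E n k (fun x hx => hblt x hx) hbc hk,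
      ofM_reg M hM B hB1 E (by rw [hB3, hE1]),
      blk_reg b E n k (fun x hx => hblt x hx) hbc, hE2, ofM_le M hM E, by
        rw [blk_r]
        conv_rhs => rw [← Finset.card_range n]
        apply Finset.card_le_card
        intro j hj
        rw [Finset.mem_image] at hj
        obtain ⟨x, hx, rfl⟩ := hj
        rw [Finset.mem_range]
        exact hblt x hx⟩
  obtain ⟨m, T, h1, h2, h3⟩ := (claim hn k _ _ _ E c b s n hst rfl).family
  rw [blk_pot, Nat.add_zero] at h1
  refine ⟨m, fun j => (T j : Set α), ?_, ?_, ?_, ?_⟩
  · rw [← hp]
    exact_mod_cast h1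
  · intro j
    obtain ⟨_, h4, h5, _⟩ := h2 j
    exact ofM_base M hM h4 h5
  · intro j i
    obtain ⟨h4, h5, _, h6⟩ := h2 j
    rw [blk_r] at h6
    -- `b` is injective on `T j` and onto the blocks
    have hinj : Set.InjOn b (T j : Set α) := by
      rw [← Finset.card_image_iff, h6, h5]
    have himg : (T j).image b = Finset.range n := by
      apply Finset.eq_of_subset_of_card_le
      · intro y hy
        rw [Finset.mem_image] at hy
        obtain ⟨x, hx, rfl⟩ := hy
        rw [Finset.mem_range]
        exact hblt x (h4 hx)
      · rw [h6, Finset.card_range]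
    have h7 : (i : ℕ) ∈ (T j).image b := by
      rw [himg, Finset.mem_range]; exact i.2
    rw [Finset.mem_image] at h7
    obtain ⟨x, hx, hxi⟩ := h7
    rw [Set.encard_eq_one]
    refine ⟨x, ?_⟩
    ext y
    rw [Set.mem_inter_iff, Finset.mem_coe, Set.mem_singleton_iff]
    constructor
    · rintro ⟨hy, hyi⟩
      have h8 : b y = i := (hb y (h4 hy) i).mpr hyi
      exact hinj (Finset.mem_coe.mpr hy) (Finset.mem_coe.mpr hx) (by rw [h8, hxi])
    · rintro rfl
      exact ⟨hx, (hb y (h4 hx) i).mp hxi⟩
  · intro j j' hjj
    exact Finset.disjoint_coe.mpr (h3 hjj)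

end Pool.Agent.Results.MP_bb782b_co.SplittingBound
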